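import Pool.Agent.Helper50.CC.Value
import Pool.Agent.Helper15.CC.IN

/-!
# Jacobi sums are CM numbers, and the relations between them
-/

set_option autoImplicit false

namespace Pool.Agent.Helper67.CC

open Module Pool.Agent.Helper71.AA Pool.Agent.Helper73.KT Pool.Agent.Helper70.CC
open Pool.Agent.Helper15.CC

variable {F : Type} [Field F] [Fintype F]

omit [Fintype F] in
theorem pow_one_of_order {m : ℕ} {η : MulChar F ℂ} (hη : orderOf η = m) (a : ℕ) :
    (η ^ a) ^ m = 1 := by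
  rw [← pow_mul, mul_comm, pow_mul, ← hη, pow_orderOf_eq_one, one_pow]

omit [Fintype F] in
theorem pow_ne_one_of_order {m : ℕ} {η : MulChar F ℂ} (hη : orderOf η = m) {a : ℕ}
    (ha : a % m ≠ 0) : η ^ a ≠ 1 := by
  intro h
  have h1 := orderOf_dvd_of_pow_eq_one h
  rw [hη] at h1
  exact ha (Nat.mod_eq_zero_of_dvd h1)

theorem mod_ne {m a b : ℕ} (ha : 0 < a) (ham : a < m) (hb : 0 < b) (hbm : b < m)
    (hab : a + b ≠ m) : (a + b) % m ≠ 0 := by
  intro h
  obtain ⟨c, hc⟩ := Nat.dvd_of_mod_eq_zero h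
  have h5 : c < 2 := by
    by_contra h6
    have : m * 2 ≤ m * c := Nat.mul_le_mul_left _ (by omega)
    omega
  interval_cases c <;> omega

/-- The complex conjugate of a Jacobi sum. -/
theorem conj_jac (χ φ : MulChar F ℂ) :
    (starRingEnd ℂ) (jacobiSum χ φ) = jacobiSum χ⁻¹ φ⁻¹ := by
  unfold jacobiSum
  rw [map_sum]
  refine Finset.sum_congr rfl fun x _ => ?_
  rw [map_mul, starRingEnd_apply, starRingEnd_apply, MulChar.star_apply', MulChar.star_apply']

theorem jac_mul_conj {χ φ : MulChar F ℂ} (hχ : χ ≠ 1) (hφ : φ ≠ 1) (hχφ : χ * φ ≠ 1) :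
    jacobiSum χ φ * (starRingEnd ℂ) (jacobiSum χ φ) = Fintype.card F := by
  rw [conj_jac]
  refine jacobiSum_mul_jacobiSum_inv ?_ hχ hφ hχφ
  rw [ringChar.eq_zero]
  obtain ⟨-, -, -, hp⟩ := card_eq_pow (F := F)
  exact hp.ne_zero.symm

theorem jac_mem_adjoin {m : ℕ} (hm : 0 < m) {χ φ : MulChar F ℂ} (hχ : χ ^ m = 1)
    (hφ : φ ^ m = 1) :
    IsIntegral ℤ (jacobiSum χ φ) ∧
      jacobiSum χ φ ∈ IntermediateField.adjoin ℚ {z : ℂ | z ^ m = 1} := by
  have : NeZero m := ⟨hm.ne'⟩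
  have hμ := Complex.isPrimitiveRoot_exp m hm.ne'
  obtain ⟨μ, hμ⟩ : ∃ μ : ℂ, IsPrimitiveRoot μ m := ⟨_, hμ⟩
  have h := jacobiSum_mem_algebraAdjoin_of_pow_eq_one hχ hφ hμ
  have hμL : μ ∈ IntermediateField.adjoin ℚ {z : ℂ | z ^ m = 1} :=
    IntermediateField.subset_adjoin _ _ hμ.pow_eq_one
  have hμi : IsIntegral ℤ μ := hμ.isIntegral hm
  constructor
  · have h1 : Algebra.adjoin ℤ {μ} ≤ integralClosure ℤ ℂ :=
      Algebra.adjoin_le (by rintro x rfl; exact hμi)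
    exact h1 h
  · have h1 : Algebra.adjoin ℤ {μ} ≤
        (IntermediateField.adjoin ℚ {z : ℂ | z ^ m = 1}).toSubalgebra.restrictScalars ℤ :=
      Algebra.adjoin_le (by rintro x rfl; exact hμL)
    exact h1 h

theorem jac_cm {m : ℕ} (hm : 3 ≤ m) (hF : m ∣ Fintype.card F - 1) {η : MulChar F ℂ}
    (hη : orderOf η = m) {a b : ℕ} (ha : 0 < a) (ham : a < m) (hb : 0 < b) (hbm : b < m)
    (hab : a + b ≠ m) : IsCM m F (jacobiSum (η ^ a) (η ^ b)) := by
  have hm0 : 0 < m := by omega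
  have h1 := jac_mem_adjoin hm0 (pow_one_of_order hη a) (pow_one_of_order hη b)
  have hχ : η ^ a ≠ 1 := pow_ne_one_of_order hη (by rw [Nat.mod_eq_of_lt ham]; omega)
  have hφ : η ^ b ≠ 1 := pow_ne_one_of_order hη (by rw [Nat.mod_eq_of_lt hbm]; omega)
  have hχφ : η ^ a * η ^ b ≠ 1 := by
    rw [← pow_add]
    exact pow_ne_one_of_order hη (mod_ne ha ham hb hbm hab)
  have h2 := jac_mul_conj hχ hφ hχφ
  refine ⟨h1.1, h1.2, h2, ?_⟩
  intro A
  by_cases hA : A.valuation ((ringChar F : ℕ) : ℂ) < 1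
  · obtain ⟨t, ht, hp⟩ := Pool.Agent.Helper50.CC.exists_type hm hF hη A hA
    exact ⟨_, Pool.Agent.Helper50.CC.jac_value hm hF ht hp ha ham hb hbm hab⟩
  · refine ⟨0, ?_⟩
    have hp1 : A.valuation ((ringChar F : ℕ) : ℂ) = 1 := by
      refine le_antisymm (valuation_le_one ?_ A) (not_lt.1 hA)
      have := isIntegral_algebraMap (R := ℤ) (A := ℂ) (x := ((ringChar F : ℕ) : ℤ))
      simpa using this
    obtain ⟨n, hn, hc, -⟩ := card_eq_pow (F := F)
    have hq1 : A.valuation (Fintype.card F : ℂ) = 1 := by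
      rw [hc]; push_cast; rw [map_pow, hp1, one_pow]
    have h3 := valuation_le_one h1.1 A
    have h4 := valuation_le_one (isIntegral_conj h1.1) A
    have h5 : A.valuation (jacobiSum (η ^ a) (η ^ b)) = 1 := by
      have h6 : A.valuation (jacobiSum (η ^ a) (η ^ b)) *
          A.valuation ((starRingEnd ℂ) (jacobiSum (η ^ a) (η ^ b))) = 1 := by
        rw [← map_mul, h2, hq1]
      refine le_antisymm h3 ?_
      by_contra hlt
      push Not at hlt
      exact absurd h6 (mul_lt_one_of_lt_of_le hlt h4).ne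
    rw [map_pow, h5, pow_zero, one_pow, map_one]

theorem jac_dual {m : ℕ} (hm : 3 ≤ m) (hF : m ∣ Fintype.card F - 1) {η : MulChar F ℂ}
    (hη : orderOf η = m) {a b : ℕ} (ha : 0 < a) (ham : a < m) (hb : 0 < b) (hbm : b < m)
    (hab : a + b ≠ m) :
    sym (jacobiSum (η ^ a) (η ^ b)) + sym (jacobiSum (η ^ (m - a)) (η ^ (m - b))) -
      sym (Fintype.card F : ℂ) ∈ relations m F := by
  have h1 : ∀ c, c < m → η ^ (m - c) = (η ^ c)⁻¹ := by
    intro c hc
    rw [eq_inv_iff_mul_eq_one, ← pow_add, Nat.sub_add_cancel hc.le, ← hη, pow_orderOf_eq_one]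
  rw [h1 a ham, h1 b hbm, ← conj_jac]
  exact AddSubgroup.subset_closure
    (Or.inl (Or.inr ⟨_, jac_cm hm hF hη ha ham hb hbm hab, rfl⟩))

theorem jac_assoc {m : ℕ} (hm : 3 ≤ m) {η : MulChar F ℂ}
    (hη : orderOf η = m) {a b c : ℕ} (ha : a % m ≠ 0) (hb : b % m ≠ 0) (hc : c % m ≠ 0)
    (hab : (a + b) % m ≠ 0) (hbc : (b + c) % m ≠ 0) (habc : (a + b + c) % m ≠ 0) :
    sym (jacobiSum (η ^ a) (η ^ b)) + sym (jacobiSum (η ^ ((a + b) % m)) (η ^ c)) -
      sym (jacobiSum (η ^ b) (η ^ c)) - sym (jacobiSum (η ^ a) (η ^ ((b + c) % m))) ∈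
      relations m F := by
  have h1 : ∀ k, η ^ (k % m) = η ^ k := by
    intro k
    rw [← hη, pow_mod_orderOf]
  rw [h1, h1, pow_add, pow_add]
  refine AddSubgroup.subset_closure (Or.inr ⟨η ^ a, η ^ b, η ^ c, pow_one_of_order hη a,
    pow_one_of_order hη b, pow_one_of_order hη c, pow_ne_one_of_order hη ha,
    pow_ne_one_of_order hη hb, pow_ne_one_of_order hη hc, ?_, ?_, ?_, rfl⟩)
  · rw [← pow_add]; exact pow_ne_one_of_order hη hab
  · rw [← pow_add]; exact pow_ne_one_of_order hη hbc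
  · rw [← pow_add, ← pow_add]; exact pow_ne_one_of_order hη habc

end Pool.Agent.Helper67.CC
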